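import Pool.Agent.W733.WM.Key0
import Pool.Agent.H24R2.JP.B1
import Pool.Agent.H24R2.JP.Grow
import Pool.Agent.H24R2.JP.Had
import Pool.Agent.H24R2.JP.Mom

set_option autoImplicit false

/-! WM2-KEY: the interpolation inequality between consecutive zeros. -/

namespace Pool.Agent.W733.WM

open Pool.Agent.W120.WM
open Pool.Agent.H24R2.JP (XX FF SB1 SGrow SHad SMom b1 grow had mom)

theorem ff_zero_ne : FF 0 ≠ 0 := by
  obtain ⟨M, hM, hg, -⟩ := mom
  have h := b1.2.2.2 0
  rw [iteratedDeriv_zero] at h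
  rw [h, hg 0]
  have h1 : (0 : ℝ) < (Nat.factorial 0 : ℝ) / (Nat.factorial (2 * 0) : ℝ) * M 0 := by
    have := hM 0
    positivity
  exact_mod_cast h1.ne'

theorem key (hl : U_LINK) : U_KEY := key_core b1 (grow b1) had ff_zero_ne hl

end Pool.Agent.W733.WM
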