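import Pool.Agent.W120.WM.Defs2
import Pool.Agent.H24R2.JP.Zeros

set_option autoImplicit false

/-! WM2-KEY: the interpolation inequality between consecutive zeros (core). -/

open Filter Topology Set Polynomial

namespace Pool.Agent.W733.WM

open Pool.Agent.W120.WM
open Pool.Agent.H24R2.JP (XX FF SB1 SGrow SHad)

/-- one linear factor -/
theorem lin (a b t δ θ : ℝ) (h0 : 0 ≤ θ) (h1 : θ ≤ 1) (hab : a < b) (ht : t = θ * a + (1 - θ) * b)
    (w : ℂ) (hw : w.re = 0) (hr : w.im ≤ a ∨ b ≤ w.im) :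
    ‖(⟨0, a⟩ : ℂ) - w‖ ^ θ * ‖(⟨0, b⟩ : ℂ) - w‖ ^ (1 - θ) ≤ ‖(⟨δ, t⟩ : ℂ) - w‖ := by
  have ha : ‖(⟨0, a⟩ : ℂ) - w‖ = |a - w.im| := by
    have : (⟨0, a⟩ : ℂ) - w = ((a - w.im : ℝ) : ℂ) * Complex.I := by
      apply Complex.ext <;> simp [hw]
    rw [this, norm_mul, Complex.norm_I, mul_one, Complex.norm_real, Real.norm_eq_abs]
  have hb : ‖(⟨0, b⟩ : ℂ) - w‖ = |b - w.im| := by
    have : (⟨0, b⟩ : ℂ) - w = ((b - w.im : ℝ) : ℂ) * Complex.I := by
      apply Complex.ext <;> simp [hw]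
    rw [this, norm_mul, Complex.norm_I, mul_one, Complex.norm_real, Real.norm_eq_abs]
  have hz : |t - w.im| ≤ ‖(⟨δ, t⟩ : ℂ) - w‖ := by
    have := Complex.abs_im_le_norm ((⟨δ, t⟩ : ℂ) - w)
    simpa using this
  refine le_trans ?_ hz
  rw [ha, hb]
  rcases hr with hr | hr
  · have e1 : |a - w.im| = a - w.im := abs_of_nonneg (by linarith)
    have e2 : |b - w.im| = b - w.im := abs_of_nonneg (by linarith)
    rw [e1, e2]
    have h := Real.geom_mean_le_arith_mean2_weighted h0 (by linarith : 0 ≤ 1 - θ)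
      (by linarith : 0 ≤ a - w.im) (by linarith : 0 ≤ b - w.im) (by ring)
    refine h.trans (le_trans (le_of_eq ?_) (le_abs_self _))
    rw [ht]; ring
  · have e1 : |a - w.im| = w.im - a := by rw [abs_of_nonpos (by linarith)]; ring
    have e2 : |b - w.im| = w.im - b := by rw [abs_of_nonpos (by linarith)]; ring
    rw [e1, e2]
    have h := Real.geom_mean_le_arith_mean2_weighted h0 (by linarith : 0 ≤ 1 - θ)
      (by linarith : 0 ≤ w.im - a) (by linarith : 0 ≤ w.im - b) (by ring)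
    refine h.trans (le_trans (le_of_eq ?_) (neg_le_abs _))
    rw [ht]; ring

theorem prodIneq (a b t δ θ : ℝ) (h0 : 0 ≤ θ) (h1 : θ ≤ 1) (hab : a < b)
    (ht : t = θ * a + (1 - θ) * b) (m : Multiset ℂ) :
    (∀ w ∈ m, w.re = 0 ∧ (w.im ≤ a ∨ b ≤ w.im)) →
    ‖(m.map (fun w => (⟨0, a⟩ : ℂ) - w)).prod‖ ^ θ *
      ‖(m.map (fun w => (⟨0, b⟩ : ℂ) - w)).prod‖ ^ (1 - θ) ≤
      ‖(m.map (fun w => (⟨δ, t⟩ : ℂ) - w)).prod‖ := by
  induction m using Multiset.induction_on with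
  | empty => intro _; simp
  | cons w m ih =>
    intro h
    have h' := ih (fun w hw => h w (Multiset.mem_cons_of_mem hw))
    have hl := lin a b t δ θ h0 h1 hab ht w (h w (Multiset.mem_cons_self w m)).1
      (h w (Multiset.mem_cons_self w m)).2
    simp only [Multiset.map_cons, Multiset.prod_cons, norm_mul]
    rw [Real.mul_rpow (norm_nonneg _) (norm_nonneg _), Real.mul_rpow (norm_nonneg _) (norm_nonneg _)]
    calc _ = (‖(⟨0, a⟩ : ℂ) - w‖ ^ θ * ‖(⟨0, b⟩ : ℂ) - w‖ ^ (1 - θ)) *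
          (‖(m.map (fun w => (⟨0, a⟩ : ℂ) - w)).prod‖ ^ θ *
            ‖(m.map (fun w => (⟨0, b⟩ : ℂ) - w)).prod‖ ^ (1 - θ)) := by ring
      _ ≤ _ := mul_le_mul hl h' (by positivity) (norm_nonneg _)

theorem polyR (a b t δ θ : ℝ) (h0 : 0 ≤ θ) (h1 : θ ≤ 1) (hab : a < b)
    (ht : t = θ * a + (1 - θ) * b) (R : ℂ[X])
    (hR : ∀ w, R.IsRoot w → R ≠ 0 → w.re = 0 ∧ (w.im ≤ a ∨ b ≤ w.im)) :
    ‖R.eval (⟨0, a⟩ : ℂ)‖ ^ θ * ‖R.eval (⟨0, b⟩ : ℂ)‖ ^ (1 - θ) ≤ ‖R.eval (⟨δ, t⟩ : ℂ)‖ := by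
  by_cases hR0 : R = 0
  · subst hR0
    simp only [eval_zero, norm_zero]
    rcases eq_or_lt_of_le h0 with h | h
    · rw [← h, sub_zero, Real.rpow_one, mul_zero]
    · rw [Real.zero_rpow h.ne', zero_mul]
  have hsp := (IsAlgClosed.splits R).eq_prod_roots
  have hev : ∀ z : ℂ, R.eval z = R.leadingCoeff * (R.roots.map (fun w => z - w)).prod := by
    intro z
    conv_lhs => rw [hsp]
    rw [eval_mul, eval_C, eval_multiset_prod, Multiset.map_map]
    congr 2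
    apply Multiset.map_congr rfl
    intro w _
    simp
  rw [hev, hev, hev, norm_mul, norm_mul, norm_mul,
    Real.mul_rpow (norm_nonneg _) (norm_nonneg _), Real.mul_rpow (norm_nonneg _) (norm_nonneg _)]
  have hc : ‖R.leadingCoeff‖ ^ θ * ‖R.leadingCoeff‖ ^ (1 - θ) = ‖R.leadingCoeff‖ := by
    have hpos : 0 < ‖R.leadingCoeff‖ := norm_pos_iff.2 (leadingCoeff_ne_zero.2 hR0)
    rw [← Real.rpow_add hpos]
    simp
  have hp := prodIneq a b t δ θ h0 h1 hab ht R.roots (fun w hw => hR w ((mem_roots hR0).1 hw) hR0)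
  calc _ = (‖R.leadingCoeff‖ ^ θ * ‖R.leadingCoeff‖ ^ (1 - θ)) *
        (‖(R.roots.map (fun w => (⟨0, a⟩ : ℂ) - w)).prod‖ ^ θ *
            ‖(R.roots.map (fun w => (⟨0, b⟩ : ℂ) - w)).prod‖ ^ (1 - θ)) := by ring
    _ ≤ _ := by
      rw [hc]
      exact mul_le_mul_of_nonneg_left hp (norm_nonneg _)

/-- (A) -/
theorem polyQ (a b t δ θ : ℝ) (h0 : 0 ≤ θ) (h1 : θ ≤ 1) (hab : a < b)
    (ht : t = θ * a + (1 - θ) * b) (Q : ℂ[X])
    (ha : Q.eval (⟨0, a⟩ : ℂ) = 0) (hb : Q.eval (⟨0, b⟩ : ℂ) = 0)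
    (hQ : ∀ w, Q.IsRoot w → Q ≠ 0 → w.re = 0 ∧ (w.im ≤ a ∨ b ≤ w.im)) :
    ‖(⟨δ, t - a⟩ : ℂ)‖ * ‖(⟨δ, t - b⟩ : ℂ)‖ *
    (‖Q.derivative.eval (⟨0, a⟩ : ℂ)‖ ^ θ * ‖Q.derivative.eval (⟨0, b⟩ : ℂ)‖ ^ (1 - θ)) ≤
    (b - a) * ‖Q.eval (⟨δ, t⟩ : ℂ)‖ := by
  obtain ⟨Q1, hQ1⟩ := dvd_iff_isRoot.2 (show Q.IsRoot (⟨0, a⟩ : ℂ) from ha)
  have hne : (⟨0, b⟩ : ℂ) - ⟨0, a⟩ ≠ 0 := by
    intro h
    have := congrArg Complex.im h
    simp at this
    linarith
  have hb1 : Q1.eval (⟨0, b⟩ : ℂ) = 0 := by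
    rw [hQ1] at hb
    simp only [eval_mul, eval_sub, eval_X, eval_C, mul_eq_zero] at hb
    exact hb.resolve_left hne
  obtain ⟨R, hR⟩ := dvd_iff_isRoot.2 (show Q1.IsRoot (⟨0, b⟩ : ℂ) from hb1)
  have hQR : Q = (X - C (⟨0, a⟩ : ℂ)) * ((X - C (⟨0, b⟩ : ℂ)) * R) := by rw [hQ1, hR]
  have hda : Q.derivative.eval (⟨0, a⟩ : ℂ) = ((⟨0, a⟩ : ℂ) - ⟨0, b⟩) * R.eval (⟨0, a⟩ : ℂ) := by
    rw [hQR]
    simp [derivative_mul]
  have hdb : Q.derivative.eval (⟨0, b⟩ : ℂ) = ((⟨0, b⟩ : ℂ) - ⟨0, a⟩) * R.eval (⟨0, b⟩ : ℂ) := by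
    rw [hQR]
    simp [derivative_mul]
  have hz : Q.eval (⟨δ, t⟩ : ℂ) = (⟨δ, t - a⟩ : ℂ) * ((⟨δ, t - b⟩ : ℂ) * R.eval (⟨δ, t⟩ : ℂ)) := by
    rw [hQR]
    have e1 : (⟨δ, t⟩ : ℂ) - ⟨0, a⟩ = ⟨δ, t - a⟩ := by apply Complex.ext <;> simp
    have e2 : (⟨δ, t⟩ : ℂ) - ⟨0, b⟩ = ⟨δ, t - b⟩ := by apply Complex.ext <;> simp
    simp only [eval_mul, eval_sub, eval_X, eval_C, e1, e2]
  have hn : ‖(⟨0, b⟩ : ℂ) - ⟨0, a⟩‖ = b - a := by
    have : (⟨0, b⟩ : ℂ) - ⟨0, a⟩ = ((b - a : ℝ) : ℂ) * Complex.I := by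
      apply Complex.ext <;> simp
    rw [this, norm_mul, Complex.norm_I, mul_one, Complex.norm_real, Real.norm_eq_abs,
      abs_of_pos (by linarith)]
  have hn' : ‖(⟨0, a⟩ : ℂ) - ⟨0, b⟩‖ = b - a := by rw [norm_sub_rev]; exact hn
  have hRr := polyR a b t δ θ h0 h1 hab ht R (by
    intro w hw hR0
    apply hQ w
    · rw [hQR]
      simp only [IsRoot.def, eval_mul] at hw ⊢
      rw [hw]; simp
    · rw [hQR]
      exact mul_ne_zero (X_sub_C_ne_zero _) (mul_ne_zero (X_sub_C_ne_zero _) hR0))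
  rw [hda, hdb, hz, norm_mul, norm_mul, norm_mul, norm_mul, hn, hn',
    Real.mul_rpow (by linarith) (norm_nonneg _), Real.mul_rpow (by linarith) (norm_nonneg _)]
  have hc : (b - a) ^ θ * (b - a) ^ (1 - θ) = b - a := by
    rw [← Real.rpow_add (by linarith : 0 < b - a)]
    simp
  calc _ = ((b - a) ^ θ * (b - a) ^ (1 - θ)) * (‖(⟨δ, t - a⟩ : ℂ)‖ * (‖(⟨δ, t - b⟩ : ℂ)‖ *
        (‖R.eval (⟨0, a⟩ : ℂ)‖ ^ θ * ‖R.eval (⟨0, b⟩ : ℂ)‖ ^ (1 - θ)))) := by ring
    _ ≤ _ := by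
      rw [hc]
      apply mul_le_mul_of_nonneg_left _ (by linarith)
      apply mul_le_mul_of_nonneg_left _ (norm_nonneg _)
      exact mul_le_mul_of_nonneg_left hRr (norm_nonneg _)

open Metric in
/-- Hurwitz, local form (after `Pool.Agent.Helper859.Br.C1.hurwitz`). -/
theorem hurwitz {V : Set ℂ} (hV : IsOpen V)
    {F : ℕ → ℂ → ℂ} {f : ℂ → ℂ}
    (hd : ∀ i, DifferentiableOn ℂ (F i) V) (hlim : TendstoLocallyUniformlyOn F f atTop V)
    (hne : ∀ i, ∀ z ∈ V, F i z ≠ 0) {a : ℂ} (ha : a ∈ V) (h0 : f a = 0) :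
    ∀ᶠ z in 𝓝 a, f z = 0 := by
  have hfd : DifferentiableOn ℂ f V := hlim.differentiableOn (Eventually.of_forall hd) hV
  have hfa : AnalyticAt ℂ f a := hfd.analyticAt (hV.mem_nhds ha)
  rcases hfa.eventually_eq_zero_or_eventually_ne_zero with h | h
  · exact h
  exfalso
  rw [eventually_nhdsWithin_iff, Metric.eventually_nhds_iff_ball] at h
  obtain ⟨r1, hr1, h1⟩ := h
  obtain ⟨r2, hr2, h2⟩ := Metric.isOpen_iff.1 hV a ha
  set r : ℝ := min r1 r2 / 2 with hr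
  have hrp : 0 < r := by positivity
  have hr1' : r < r1 := by have := min_le_left r1 r2; have : 0 < min r1 r2 := by positivity
                           linarith
  have hr2' : r < r2 := by have := min_le_right r1 r2; have : 0 < min r1 r2 := by positivity
                           linarith
  have hcb : closedBall a r ⊆ V := (closedBall_subset_ball hr2').trans h2
  have hsph : IsCompact (sphere a r) := isCompact_sphere a r
  have hne' : (sphere a r).Nonempty := NormedSpace.sphere_nonempty.2 hrp.le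
  have hcont : ContinuousOn (fun z => ‖f z‖) (sphere a r) :=
    (hfd.continuousOn.mono (sphere_subset_closedBall.trans hcb)).norm
  obtain ⟨w, hw, hwmin⟩ := hsph.exists_isMinOn hne' hcont
  have hδ : 0 < ‖f w‖ := by
    rw [norm_pos_iff]
    apply h1 w
    · have : dist w a = r := hw
      rw [mem_ball, this]; exact hr1'
    · intro hwa
      have : dist w a = r := hw
      rw [hwa, dist_self] at this
      linarith
  set δ := ‖f w‖ with hδdef
  have hunif : TendstoUniformlyOn F f atTop (closedBall a r) :=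
    (tendstoLocallyUniformlyOn_iff_forall_isCompact hV).1 hlim _ hcb (isCompact_closedBall a r)
  have hev := (Metric.tendstoUniformlyOn_iff.1 hunif) (δ / 2) (by positivity)
  obtain ⟨i, hi⟩ := hev.exists
  have hsphb : ∀ z ∈ sphere a r, δ / 2 ≤ ‖F i z‖ := by
    intro z hz
    have h3 := hi z (sphere_subset_closedBall hz)
    have h4 : δ ≤ ‖f z‖ := hwmin hz
    rw [dist_eq_norm] at h3
    have h5 : ‖f z‖ - ‖F i z‖ ≤ ‖f z - F i z‖ := norm_sub_norm_le _ _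
    linarith
  have hctr : ‖F i a‖ < δ / 2 := by
    have h3 := hi a (mem_closedBall_self hrp.le)
    rw [dist_eq_norm, h0, zero_sub, norm_neg] at h3
    exact h3
  have hdc : DiffContOnCl ℂ (fun z => (F i z)⁻¹) (ball a r) := by
    apply DifferentiableOn.diffContOnCl
    rw [closure_ball a hrp.ne']
    exact ((hd i).mono hcb).inv (fun z hz => hne i z (hcb hz))
  have hmax := Complex.norm_le_of_forall_mem_frontier_norm_le (C := 2 / δ) isBounded_ball hdc
    (by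
      intro z hz
      rw [frontier_ball a hrp.ne'] at hz
      rw [norm_inv]
      have h3 := hsphb z hz
      rw [inv_le_comm₀ (by linarith) (by positivity)]
      rw [inv_div]
      exact h3) (subset_closure (mem_ball_self hrp))
  rw [norm_inv] at hmax
  have hpos : 0 < ‖F i a‖ := norm_pos_iff.2 (hne i a ha)
  rw [inv_le_comm₀ hpos (by positivity), inv_div] at hmax
  linarith

/-- zeros of the limit are zeros of the approximants, if the zeros of those are among the zeros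
of the limit -/
theorem evz (Q : ℕ → ℂ[X]) (f : ℂ → ℂ) (hlim : TendstoLocallyUniformly (fun N z => (Q N).eval z) f
    atTop) (hz : ∀ N z, (Q N).eval z = 0 → f z = 0) (z1 : ℂ) (h1 : f z1 ≠ 0) (w : ℂ)
    (hw : f w = 0) : ∀ᶠ N in atTop, (Q N).eval w = 0 := by
  by_contra hcon
  have hfr : ∃ᶠ N in atTop, (Q N).eval w ≠ 0 := by
    rw [Filter.not_eventually] at hcon
    exact hcon
  obtain ⟨φ, hφ, hφ2⟩ := Filter.extraction_of_frequently_atTop hfr
  have hlimU : TendstoLocallyUniformlyOn (fun N z => (Q N).eval z) f atTop univ :=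
    tendstoLocallyUniformlyOn_univ.2 hlim
  have hfd : DifferentiableOn ℂ f univ := hlimU.differentiableOn
    (Eventually.of_forall fun N => (Q N).differentiable.differentiableOn) isOpen_univ
  have hfa : AnalyticOnNhd ℂ f univ := hfd.analyticOnNhd isOpen_univ
  have hnot : ¬ ∀ᶠ z in 𝓝 w, f z = 0 := by
    intro h
    have := hfa.eqOn_zero_of_preconnected_of_eventuallyEq_zero isPreconnected_univ (mem_univ w) h
    exact h1 (this (mem_univ z1))
  rcases (hfa w (mem_univ w)).eventually_eq_zero_or_eventually_ne_zero with h | h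
  · exact hnot h
  rw [eventually_nhdsWithin_iff, Metric.eventually_nhds_iff_ball] at h
  obtain ⟨r, hr, h2⟩ := h
  apply hnot
  have hl : TendstoLocallyUniformlyOn (fun N z => (Q (φ N)).eval z) f atTop (Metric.ball w r) := by
    intro u hu x hx
    obtain ⟨t, ht, h3⟩ := hlim u hu x
    exact ⟨t, mem_nhdsWithin_of_mem_nhds ht, hφ.tendsto_atTop.eventually h3⟩
  refine hurwitz Metric.isOpen_ball (fun i => (Q (φ i)).differentiable.differentiableOn) hl ?_
    (Metric.mem_ball_self hr) hw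
  intro i z hzb hz0
  by_cases hzw : z = w
  · rw [hzw] at hz0
    exact hφ2 i hz0
  · exact h2 z hzb hzw (hz _ _ hz0)

theorem xx_re (hRH : RHp) (w : ℂ) (hw : XX w = 0) : w.re = 0 := by
  have key : ∀ w : ℂ, 0 ≤ w.re → XX w = 0 → w.re = 0 := by
    intro w h0 hw
    obtain ⟨h1, h2, h3⟩ := Pool.Agent.H24R2.JP.Zer.completed_zero w hw
    have hz : riemannZeta (1 / 2 + w) = 0 := by
      rw [riemannZeta_def_of_ne_zero h1, h3, zero_div]
    have hre : (1 / 2 + w : ℂ).re = 1 / 2 + w.re := by simp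
    have hlt : (1 / 2 + w : ℂ).re < 1 := by
      by_contra hc
      exact riemannZeta_ne_zero_of_one_le_re (not_lt.1 hc) hz
    have := hRH (1 / 2 + w) ⟨hz, by rw [hre]; linarith, hlt⟩
    rw [hre] at this
    linarith
  rcases le_total 0 w.re with h | h
  · exact key w h hw
  · have := key (-w) (by simpa using h) (by rw [Pool.Agent.H24R2.JP.Zer.XX_even]; exact hw)
    simpa using this

theorem key_core (hb : SB1) (hg : SGrow) (hh : SHad) (h0 : FF 0 ≠ 0) (hl : U_LINK) : U_KEY := by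
  intro hRH a b t δ θ hC hat htb hδ hθ
  obtain ⟨hab, hza, hzb, hbet⟩ := hC
  obtain ⟨hFd, hFX, hFc, -⟩ := hb
  obtain ⟨K, hK⟩ := hg
  obtain ⟨P, hP1, hP2⟩ := hh FF K hFd h0 hFc hK
  have hθ0 : 0 ≤ θ := by
    by_contra hc
    push Not at hc
    nlinarith
  have hθ1 : θ ≤ 1 := by
    by_contra hc
    push Not at hc
    nlinarith
  have ht : t = θ * a + (1 - θ) * b := by linarith
  set Q : ℕ → ℂ[X] := fun N => ((P N).map (algebraMap ℝ ℂ)).comp (X ^ 2) with hQ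
  have hev : ∀ N z, (Q N).eval z = aeval (z ^ 2) (P N) := by
    intro N z
    simp only [hQ, eval_comp, eval_pow, eval_X, eval_map_algebraMap]
  have hXX : (fun z : ℂ => FF (z ^ 2)) = XX := funext hFX
  have hlim : TendstoLocallyUniformly (fun N z => (Q N).eval z) XX atTop := by
    have h := hP2.comp (fun z : ℂ => z ^ 2) (by fun_prop)
    rw [← hXX]
    have e : (fun (N : ℕ) (z : ℂ) => (Q N).eval z) =
        fun N => (fun x : ℂ => aeval x (P N)) ∘ (fun z : ℂ => z ^ 2) := by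
      funext N z
      exact hev N z
    rw [e]
    exact h
  have hz : ∀ N z, (Q N).eval z = 0 → XX z = 0 := by
    intro N z h
    rw [← hFX]
    apply hP1 N
    rw [← hev]
    exact h
  have hXX0 : XX 0 ≠ 0 := by
    rw [← hFX]
    simpa using h0
  have hXa : XX (⟨0, a⟩ : ℂ) = 0 := (hl.1 a).2 hza
  have hXb : XX (⟨0, b⟩ : ℂ) = 0 := (hl.1 b).2 hzb
  have ea := evz Q XX hlim hz 0 hXX0 _ hXa
  have eb := evz Q XX hlim hz 0 hXX0 _ hXb
  have hlimU : TendstoLocallyUniformlyOn (fun N z => (Q N).eval z) XX atTop univ :=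
    tendstoLocallyUniformlyOn_univ.2 hlim
  have hderU := hlimU.deriv
    (Eventually.of_forall fun N => (Q N).differentiable.differentiableOn) isOpen_univ
  have hder : ∀ z, Tendsto (fun N => (Q N).derivative.eval z) atTop (𝓝 (deriv XX z)) := by
    intro z
    have h := hderU.tendsto_at (mem_univ z)
    refine h.congr fun N => ?_
    simp [Polynomial.deriv]
  have hpt : Tendsto (fun N => (Q N).eval (⟨δ, t⟩ : ℂ)) atTop (𝓝 (XX (⟨δ, t⟩ : ℂ))) :=
    hlimU.tendsto_at (mem_univ _)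
  have hineq : ∀ᶠ N in atTop, ‖(⟨δ, t - a⟩ : ℂ)‖ * ‖(⟨δ, t - b⟩ : ℂ)‖ *
      (‖(Q N).derivative.eval (⟨0, a⟩ : ℂ)‖ ^ θ * ‖(Q N).derivative.eval (⟨0, b⟩ : ℂ)‖ ^ (1 - θ)) ≤
      (b - a) * ‖(Q N).eval (⟨δ, t⟩ : ℂ)‖ := by
    filter_upwards [ea, eb] with N h1 h2
    refine polyQ a b t δ θ hθ0 hθ1 hab ht (Q N) h1 h2 ?_
    intro w hw _
    have hX := hz N w hw
    have hre := xx_re hRH w hX
    refine ⟨hre, ?_⟩
    by_contra hc
    push Not at hc
    have hwe : w = ⟨0, w.im⟩ := Complex.ext hre rfl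
    rw [hwe] at hX
    exact hbet w.im ⟨hc.1, hc.2⟩ ((hl.1 w.im).1 hX)
  refine le_of_tendsto_of_tendsto ?_ ?_ hineq
  · apply Tendsto.const_mul
    apply Tendsto.mul
    · exact (hder _).norm.rpow_const (Or.inr hθ0)
    · exact (hder _).norm.rpow_const (Or.inr (by linarith))
  · exact hpt.norm.const_mul _

end Pool.Agent.W733.WM
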